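import Pool.Agent.V8H94.VT.Gen

/-!
# Generalised eigenvectors: decomposition
-/

set_option autoImplicit false

namespace Pool.Agent.V8H94.VT

open Module Polynomial TensorProduct

variable {Ω : Type} [Field Ω]

section

variable {E : Type} [AddCommGroup E] [Module Ω E] 

theorem gen_iff (G : E →ₗ[Ω] E) (a : Ω) (x : E) :
    x ∈ Module.End.maxGenEigenspace G a ↔
      ∃ k : ℕ, ((G - a • LinearMap.id) ^ k : E →ₗ[Ω] E) x = 0 := by
  rw [Module.End.mem_maxGenEigenspace]
  rfl

/-- A generalised eigenvector is a linear combination of the elements of a spanning set of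
generalised eigenvectors which belong to the same eigenvalue. -/
theorem mem_span_of_gen (G : E →ₗ[Ω] E) (P : Set E)
    (hP : Submodule.span Ω P = ⊤)
    (hG : ∀ x ∈ P, ∃ (μ : Ω) (k : ℕ), ((G - μ • LinearMap.id) ^ k : E →ₗ[Ω] E) x = 0) (lam : Ω)
    (k : ℕ) (v : E) (hv : ((G - lam • LinearMap.id) ^ k : E →ₗ[Ω] E) v = 0) :
    v ∈ Submodule.span Ω {x | x ∈ P ∧ ∃ k : ℕ,
      ((G - lam • LinearMap.id) ^ k : E →ₗ[Ω] E) x = 0} := by
  classical
  set N := Submodule.span Ω {x | x ∈ P ∧ ∃ k : ℕ,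
      ((G - lam • LinearMap.id) ^ k : E →ₗ[Ω] E) x = 0} with hN
  set M : Submodule Ω E := ⨆ (μ : Ω) (_ : μ ≠ lam), Module.End.maxGenEigenspace G μ with hM
  have hNle : N ≤ Module.End.maxGenEigenspace G lam := by
    refine Submodule.span_le.2 ?_
    rintro x ⟨_, hx⟩
    exact (gen_iff G lam x).2 hx
  have hsup : N ⊔ M = ⊤ := by
    rw [eq_top_iff, ← hP]
    refine Submodule.span_le.2 fun x hx => ?_
    obtain ⟨μ, k, hk⟩ := hG x hx
    by_cases h : μ = lam
    · subst h
      exact Submodule.mem_sup_left (Submodule.subset_span ⟨hx, k, hk⟩)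
    · refine Submodule.mem_sup_right ?_
      exact Submodule.mem_iSup_of_mem μ (Submodule.mem_iSup_of_mem h ((gen_iff G μ x).2 ⟨k, hk⟩))
  have hv' : v ∈ Module.End.maxGenEigenspace G lam := (gen_iff G lam v).2 ⟨k, hv⟩
  have hdis : Disjoint (Module.End.maxGenEigenspace G lam) M :=
    (Module.End.independent_maxGenEigenspace G) lam
  obtain ⟨n, hn, m, hm, rfl⟩ := Submodule.mem_sup.1 (hsup ▸ Submodule.mem_top (x := v))
  have hm' : m ∈ Module.End.maxGenEigenspace G lam := by
    have := Submodule.sub_mem _ hv' (hNle hn)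
    rwa [add_sub_cancel_left] at this
  have h0 : m = 0 := by
    have := hdis.le_bot (show m ∈ Module.End.maxGenEigenspace G lam ⊓ M from ⟨hm', hm⟩)
    exact (Submodule.mem_bot Ω).1 this
  rw [h0, add_zero]
  exact hn

/-- A stable subspace is spanned by generalised eigenvectors. -/
theorem le_span_gen [IsAlgClosed Ω] [Module.Finite Ω E] (G : E →ₗ[Ω] E) (N : Submodule Ω E)
    (hN : ∀ x ∈ N, G x ∈ N) :
    N ≤ Submodule.span Ω {x | x ∈ N ∧ ∃ (a : Ω) (k : ℕ),
      ((G - a • LinearMap.id) ^ k : E →ₗ[Ω] E) x = 0 ∧ ∃ y ∈ N, y ≠ 0 ∧ G y = a • y} := by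
  classical
  let g : N →ₗ[Ω] N := G.restrict hN
  have htop : ⨆ μ : Ω, Module.End.maxGenEigenspace g μ = ⊤ :=
    Module.End.iSup_maxGenEigenspace_eq_top g
  have hpow : ∀ (a : Ω) (k : ℕ) (x : N),
      ((((g - a • LinearMap.id) ^ k : N →ₗ[Ω] N) x : N) : E) =
        ((G - a • LinearMap.id) ^ k : E →ₗ[Ω] E) x := by
    intro a k
    induction k with
    | zero => intro x; rfl
    | succ k ih =>
      intro x
      rw [pow_succ, Module.End.mul_apply, ih, pow_succ, Module.End.mul_apply]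
      rfl
  intro x hx
  have h1 : (⟨x, hx⟩ : N) ∈ ⨆ μ : Ω, Module.End.maxGenEigenspace g μ := by
    rw [htop]; exact Submodule.mem_top
  have h2 : ∀ z : N, z ∈ ⨆ μ : Ω, Module.End.maxGenEigenspace g μ →
      (z : E) ∈ Submodule.span Ω {x | x ∈ N ∧ ∃ (a : Ω) (k : ℕ),
      ((G - a • LinearMap.id) ^ k : E →ₗ[Ω] E) x = 0 ∧ ∃ y ∈ N, y ≠ 0 ∧ G y = a • y} := by
    intro z hz
    induction hz using Submodule.iSup_induction' with
    | mem μ z hz =>
      obtain ⟨k, hk⟩ := (gen_iff g μ z).1 hz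
      by_cases h0 : z = 0
      · rw [h0]; exact Submodule.zero_mem _
      refine Submodule.subset_span ⟨z.2, μ, k, ?_, ?_⟩
      · rw [← hpow, hk]; rfl
      · -- an honest eigenvector in the chain
        obtain ⟨n, hn, hn'⟩ : ∃ n : ℕ, ((g - μ • LinearMap.id) ^ n : N →ₗ[Ω] N) z ≠ 0 ∧
            ((g - μ • LinearMap.id) ^ (n + 1) : N →ₗ[Ω] N) z = 0 := by
          have hex : ∃ n : ℕ, ((g - μ • LinearMap.id) ^ n : N →ₗ[Ω] N) z = 0 := ⟨k, hk⟩
          have hpos : Nat.find hex ≠ 0 := by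
            intro h
            have := Nat.find_spec hex
            rw [h] at this
            exact h0 this
          obtain ⟨n, hn⟩ := Nat.exists_eq_succ_of_ne_zero hpos
          refine ⟨n, ?_, ?_⟩
          · exact Nat.find_min hex (by omega)
          · have := Nat.find_spec hex
            rwa [hn] at this
        refine ⟨((g - μ • LinearMap.id) ^ n : N →ₗ[Ω] N) z, Subtype.coe_prop _, ?_, ?_⟩
        · intro h; exact hn (Subtype.ext h)
        · rw [pow_succ', Module.End.mul_apply, LinearMap.sub_apply, LinearMap.smul_apply,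
            LinearMap.id_apply, sub_eq_zero] at hn'
          exact congrArg Subtype.val hn'
    | zero => exact Submodule.zero_mem _
    | add y z _ _ hy hz => exact Submodule.add_mem _ hy hz
  exact h2 ⟨x, hx⟩ h1

end

section

variable {E E' E'' : Type} [AddCommGroup E] [Module Ω E] [AddCommGroup E'] [Module Ω E']
  [AddCommGroup E''] [Module Ω E'']

theorem span_bilin (f : E →ₗ[Ω] E' →ₗ[Ω] E'') {P : Set E} {P' : Set E'}
    (hP : Submodule.span Ω P = ⊤) (hP' : Submodule.span Ω P' = ⊤)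
    (hf : Submodule.span Ω {z | ∃ x y, z = f x y} = ⊤) :
    Submodule.span Ω {z | ∃ x ∈ P, ∃ y ∈ P', z = f x y} = ⊤ := by
  rw [eq_top_iff, ← hf]
  refine Submodule.span_le.2 ?_
  rintro _ ⟨x, y, rfl⟩
  have hx : x ∈ Submodule.span Ω P := hP ▸ Submodule.mem_top
  have hy : y ∈ Submodule.span Ω P' := hP' ▸ Submodule.mem_top
  refine Submodule.span_induction (p := fun x _ => f x y ∈ _) ?_ ?_ ?_ ?_ hx
  · intro x hx
    refine Submodule.span_induction (p := fun y _ => f x y ∈ _) ?_ ?_ ?_ ?_ hy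
    · intro y hy
      exact Submodule.subset_span ⟨x, hx, y, hy, rfl⟩
    · rw [map_zero]; exact Submodule.zero_mem _
    · intro a b _ _ ha hb
      rw [map_add]; exact Submodule.add_mem _ ha hb
    · intro c a _ ha
      rw [map_smul]; exact Submodule.smul_mem _ _ ha
  · rw [map_zero, LinearMap.zero_apply]; exact Submodule.zero_mem _
  · intro a b _ _ ha hb
    rw [map_add, LinearMap.add_apply]; exact Submodule.add_mem _ ha hb
  · intro c a _ ha
    rw [map_smul, LinearMap.smul_apply]; exact Submodule.smul_mem _ _ ha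

theorem span_tmul {P : Set E} {P' : Set E'} (hP : Submodule.span Ω P = ⊤)
    (hP' : Submodule.span Ω P' = ⊤) :
    Submodule.span Ω {z : E ⊗[Ω] E' | ∃ x ∈ P, ∃ y ∈ P', z = x ⊗ₜ[Ω] y} = ⊤ :=
  span_bilin (TensorProduct.mk Ω E E') hP hP' (by
    rw [eq_top_iff, ← TensorProduct.span_tmul_eq_top Ω E E']
    refine Submodule.span_mono ?_
    rintro _ ⟨x, y, rfl⟩
    exact ⟨x, y, rfl⟩)

end

end Pool.Agent.V8H94.VT
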