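import Pool.Agent.V8H94.VT.Mem
import Pool.Agent.V8H94.VT.Gen2

/-!
# The strong Tate conjecture for `X × A` if the cohomology of `X` is dominated by abelian varieties
-/

set_option autoImplicit false

namespace Pool.Agent.V8H94.VT

open Module TensorProduct Pool.Agent.V8H94.CT Pool.Agent.V8H94.TC

variable {p : ℕ} [Fact p.Prime] {Ω : Type} [Field Ω] [CharZero Ω]

/-- The exterior algebra is spanned by products of eigenvectors. -/
theorem span_wedge (A : AbVar p Ω) :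
    Submodule.span Ω {w : ExteriorAlgebra Ω A.H | ∃ U : List (Ω × A.H),
      (∀ u ∈ U, A.F u.2 = u.1 • u.2) ∧ w = wedge (U.map Prod.snd)} = ⊤ := by
  set S := Submodule.span Ω {w : ExteriorAlgebra Ω A.H | ∃ U : List (Ω × A.H),
      (∀ u ∈ U, A.F u.2 = u.1 • u.2) ∧ w = wedge (U.map Prod.snd)} with hS
  rw [eq_top_iff]
  rintro x -
  have hmul : ∀ a ∈ S, ∀ b ∈ S, a * b ∈ S := by
    intro a ha b hb
    have h1 : S * S ≤ S := by
      rw [hS, Submodule.span_mul_span]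
      refine Submodule.span_mono ?_
      rintro _ ⟨_, ⟨U, hU, rfl⟩, _, ⟨U', hU', rfl⟩, rfl⟩
      refine ⟨U ++ U', ?_, ?_⟩
      · intro u hu
        rcases List.mem_append.1 hu with hu | hu
        · exact hU u hu
        · exact hU' u hu
      · rw [List.map_append, wedge_append]
    exact h1 (Submodule.mul_mem_mul ha hb)
  induction x using ExteriorAlgebra.induction with
  | algebraMap c =>
    rw [Algebra.algebraMap_eq_smul_one]
    exact Submodule.smul_mem _ _ (Submodule.subset_span ⟨[], by simp, by simp⟩)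
  | ι v =>
    have hv : v ∈ Submodule.span Ω {v : A.H | ∃ a : Ω, A.F v = a • v} := by
      rw [A.span_eigen]; exact Submodule.mem_top
    have h1 : Submodule.span Ω {v : A.H | ∃ a : Ω, A.F v = a • v} ≤
        S.comap (ExteriorAlgebra.ι Ω) := by
      refine Submodule.span_le.2 ?_
      rintro v ⟨a, ha⟩
      refine Submodule.subset_span ⟨[(a, v)], ?_, ?_⟩
      · intro u hu
        rw [List.mem_singleton] at hu
        subst hu
        exact ha
      · simp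
    exact h1 hv
  | mul a b ha hb => exact hmul a ha b hb
  | add a b ha hb => exact Submodule.add_mem _ ha hb

/-- The strong Tate conjecture for `X × A`. -/
theorem strongTate_of_span [IsAlgClosed Ω] {T : Cohomology p Ω} (Z : Cycles T)
    (hAV : ∀ (A : AbVar p Ω) (r : ℕ), TC.TateHolds Z.S A r) {X : T.V}
    (hX : Submodule.span Ω {x | IsDom Z X x} = ⊤)
    (hwt : ∀ (i r s s' : ℕ) (a : Ω) (A : AbVar p Ω) (U : List (Ω × A.H)),
      0 < s → 0 < s' → T.m X * s = A.m * s' → IsPure p (T.m X * i) a →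
      (∀ u ∈ U, A.F u.2 = u.1 • u.2) → (∀ u ∈ U, u.2 ≠ 0) →
      a ^ s * (U.map Prod.fst).prod ^ s' = (p : Ω) ^ (T.m X * s * r) → i + U.length = 2 * r)
    (A : AbVar p Ω) : StrongTate Z X A := by
  rintro r t ⟨s, s', k, hs, hs', hss, ht⟩
  let K : ExteriorAlgebra Ω A.H →ₗ[Ω] ExteriorAlgebra Ω A.H :=
    (ExteriorAlgebra.map (A.F ^ s')).toLinearMap
  let G : T.H X ⊗[Ω] ExteriorAlgebra Ω A.H →ₗ[Ω] T.H X ⊗[Ω] ExteriorAlgebra Ω A.H :=
    TensorProduct.map (T.F X ^ s) K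
  let P : Set (T.H X ⊗[Ω] ExteriorAlgebra Ω A.H) :=
    {z | ∃ x ∈ {x | IsDom Z X x}, ∃ y ∈ {w : ExteriorAlgebra Ω A.H | ∃ U : List (Ω × A.H),
      (∀ u ∈ U, A.F u.2 = u.1 • u.2) ∧ w = wedge (U.map Prod.snd)}, z = x ⊗ₜ[Ω] y}
  have hP : Submodule.span Ω P = ⊤ := span_tmul hX (span_wedge A)
  have hG : ∀ x ∈ P, ∃ (μ : Ω) (k : ℕ), ((G - μ • LinearMap.id) ^ k :
      T.H X ⊗[Ω] ExteriorAlgebra Ω A.H →ₗ[Ω] T.H X ⊗[Ω] ExteriorAlgebra Ω A.H) x = 0 := by
    rintro _ ⟨x, ⟨i, k, c, a, _, hk, _⟩, _, ⟨U, hU, rfl⟩, rfl⟩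
    exact ⟨_, k, gen_tmul_zero (T.F X ^ s) K (map_pow_wedge_eigen A.F U hU s') (gen_pow _ s hk)⟩
  have ht' : ((G - (p : Ω) ^ (T.m X * s * r) • LinearMap.id) ^ k :
      T.H X ⊗[Ω] ExteriorAlgebra Ω A.H →ₗ[Ω] T.H X ⊗[Ω] ExteriorAlgebra Ω A.H) t = 0 := ht
  have h1 := mem_span_of_gen G P hP hG _ k t ht'
  have h2 : Submodule.span Ω {x | x ∈ P ∧ ∃ k : ℕ,
      ((G - (p : Ω) ^ (T.m X * s * r) • LinearMap.id) ^ k :
        T.H X ⊗[Ω] ExteriorAlgebra Ω A.H →ₗ[Ω] T.H X ⊗[Ω] ExteriorAlgebra Ω A.H) x = 0} ≤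
      (Z.C X A : Submodule Ω (T.H X ⊗[Ω] ExteriorAlgebra Ω A.H)) := by
    refine Submodule.span_le.2 ?_
    rintro _ ⟨⟨x, ⟨i, k', c, a, hxi, hk', hpure, hdom⟩, _, ⟨U, hU, rfl⟩, rfl⟩, k'', hk''⟩
    by_cases h0 : x ⊗ₜ[Ω] (wedge (U.map Prod.snd) : ExteriorAlgebra Ω A.H) = 0
    · rw [h0]; exact Submodule.zero_mem _
    have hrel : a ^ s * (U.map Prod.fst).prod ^ s' = (p : Ω) ^ (T.m X * s * r) :=
      gen_unique G (gen_tmul_zero (T.F X ^ s) K (map_pow_wedge_eigen A.F U hU s')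
        (gen_pow _ s hk')) hk'' h0
    have hU0 : ∀ u ∈ U, u.2 ≠ 0 := by
      intro u hu hu0
      apply h0
      obtain ⟨l₁, l₂, rfl⟩ := List.append_of_mem hu
      rw [List.map_append, List.map_cons, wedge_append, wedge_cons, hu0, map_zero, zero_mul,
        mul_zero, TensorProduct.tmul_zero]
    have hdeg := hwt i r s s' a A U hs hs' hss hpure hU hU0 hrel
    exact dom_mem Z hAV hdom A U hU hs' hss hrel hdeg
  exact h2 h1

end Pool.Agent.V8H94.VT
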