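import Mathlib

/-!
# Generalised eigenvectors
-/

set_option autoImplicit false

namespace Pool.Agent.V8H94.VT

open Module Polynomial TensorProduct

variable {Ω : Type} [Field Ω]

section

variable {E : Type} [AddCommGroup E] [Module Ω E]

theorem aeval_sub_pow (G : E →ₗ[Ω] E) (a : Ω) (k : ℕ) :
    aeval G ((X - C a) ^ k : Polynomial Ω) = (G - a • LinearMap.id) ^ k := by
  rw [map_pow, map_sub, aeval_X, aeval_C]
  rfl

theorem gen_pow (G : E →ₗ[Ω] E) {a : Ω} {k : ℕ} {x : E} (s : ℕ)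
    (h : ((G - a • LinearMap.id) ^ k : E →ₗ[Ω] E) x = 0) :
    ((G ^ s - a ^ s • LinearMap.id) ^ k : E →ₗ[Ω] E) x = 0 := by
  obtain ⟨Q, hQ⟩ := sub_dvd_pow_sub_pow (X : Polynomial Ω) (C a) s
  have h1 : (G ^ s - a ^ s • LinearMap.id) ^ k = aeval G (((X ^ s - C (a ^ s)) ^ k : Polynomial Ω)) := by
    rw [map_pow, map_sub, map_pow, aeval_X, aeval_C]
    rfl
  have h2 : ((X ^ s - C (a ^ s)) ^ k : Polynomial Ω) = Q ^ k * (X - C a) ^ k := by
    rw [C_pow, hQ, mul_pow, mul_comm]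
  rw [h1, h2, map_mul, Module.End.mul_apply, aeval_sub_pow, h, map_zero]

theorem gen_unique (G : E →ₗ[Ω] E) {a b : Ω} {k l : ℕ} {x : E}
    (h : ((G - a • LinearMap.id) ^ k : E →ₗ[Ω] E) x = 0)
    (h' : ((G - b • LinearMap.id) ^ l : E →ₗ[Ω] E) x = 0) (hx : x ≠ 0) : a = b := by
  by_contra hab
  have h1 : IsCoprime ((X - C a) ^ k : Polynomial Ω) ((X - C b) ^ l) :=
    (isCoprime_X_sub_C_of_isUnit_sub (sub_ne_zero.2 hab).isUnit).pow
  obtain ⟨u, w, huw⟩ := h1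
  apply hx
  have h2 : aeval G (u * (X - C a) ^ k + w * (X - C b) ^ l) x = x := by
    rw [huw, map_one]; rfl
  rw [← h2, map_add, map_mul, map_mul, LinearMap.add_apply, Module.End.mul_apply,
    Module.End.mul_apply, aeval_sub_pow, aeval_sub_pow, h, h', map_zero, map_zero, add_zero]

theorem gen_mono (G : E →ₗ[Ω] E) {a : Ω} {k l : ℕ} (hkl : k ≤ l) {x : E}
    (h : ((G - a • LinearMap.id) ^ k : E →ₗ[Ω] E) x = 0) :
    ((G - a • LinearMap.id) ^ l : E →ₗ[Ω] E) x = 0 := by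
  obtain ⟨d, rfl⟩ := Nat.exists_eq_add_of_le hkl
  rw [add_comm, pow_add, Module.End.mul_apply, h, map_zero]

end

section

variable {E E' : Type} [AddCommGroup E] [Module Ω E] [AddCommGroup E'] [Module Ω E']

theorem gen_tmul (G : E →ₗ[Ω] E) (K : E' →ₗ[Ω] E') {a c : Ω} {x : E} {w : E'}
    (hw : K w = c • w) (n : ℕ) :
    ((TensorProduct.map G K - (a * c) • LinearMap.id) ^ n : E ⊗[Ω] E' →ₗ[Ω] E ⊗[Ω] E') (x ⊗ₜ[Ω] w) =
      (c ^ n • ((G - a • LinearMap.id) ^ n : E →ₗ[Ω] E) x) ⊗ₜ[Ω] w := by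
  induction n with
  | zero => simp
  | succ n ih =>
    rw [pow_succ', Module.End.mul_apply, ih, LinearMap.sub_apply, TensorProduct.map_tmul, hw,
      LinearMap.smul_apply, LinearMap.id_apply, map_smul, TensorProduct.tmul_smul,
      pow_succ' (G - a • LinearMap.id) n, Module.End.mul_apply, LinearMap.sub_apply,
      LinearMap.smul_apply, LinearMap.id_apply, smul_sub, TensorProduct.sub_tmul]
    simp only [← TensorProduct.smul_tmul', smul_smul, pow_succ]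
    congr 2
    · ring
    · ring

theorem gen_tmul_zero (G : E →ₗ[Ω] E) (K : E' →ₗ[Ω] E') {a c : Ω} {x : E} {w : E'}
    (hw : K w = c • w) {n : ℕ} (h : ((G - a • LinearMap.id) ^ n : E →ₗ[Ω] E) x = 0) :
    ((TensorProduct.map G K - (a * c) • LinearMap.id) ^ n : E ⊗[Ω] E' →ₗ[Ω] E ⊗[Ω] E')
      (x ⊗ₜ[Ω] w) = 0 := by
  rw [gen_tmul G K hw, h, smul_zero, TensorProduct.zero_tmul]

end

end Pool.Agent.V8H94.VT
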