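import Pool.Agent.V8H94.VT.Gtc2
import Pool.Agent.V8H77.VT.Pure
import Pool.Agent.V8H71.VT.Prod

/-!
# The main theorem
-/

set_option autoImplicit false

namespace Pool.Agent.V8H94.VT

open Module TensorProduct Pool.Agent.V8H94.CT Pool.Agent.V8H94.TC

variable {p : ℕ} [Fact p.Prime] {Ω : Type} [Field Ω] [CharZero Ω] [IsAlgClosed Ω]

theorem main {T : Cohomology p Ω} (Z : Cycles T) {W : Set T.V}
    (hdiv : ∀ A : AbVar p Ω, TC.TateHolds Z.S A 1)
    (hlow : ∀ X ∈ W, ∀ i ≤ 1, TateInDegree Z X i) :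
    ((∀ A : AbVar p Ω, TC.GeneralisedTate Z.S A ∧ ∀ r, TC.TateHolds Z.S A r) ∧
      ∀ X, IsProduct T W X → ∀ A : AbVar p Ω, StrongTate Z X A ∧ GeneralisedTate₂ Z X A) ↔
    (TateInDegreeTwo Z.S ∧ ∀ X ∈ W, ∀ i, 2 ≤ i → i ≤ T.dim X → TateInDegree Z X i) := by
  constructor
  · rintro ⟨h1, h2⟩
    exact ⟨tateInDegreeTwo_of fun A => (h1 A).2, fun X hX i _ _ =>
      tateInDegree_of_strong (fun A => (h2 X (IsProduct.of X hX) A).1) i⟩
  · rintro ⟨h1, h2⟩
    have hAV := tateHolds_all hdiv h1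
    refine ⟨hAV, fun X hX => ?_⟩
    have hspan : Submodule.span Ω {x | IsDom Z X x} = ⊤ := by
      refine span_dom_product Z (fun X hX => ?_) (fun X Y x y hx hy => IsDom.ext hx hy) hX
      refine span_dom Z X (fun i a ha => Pool.Agent.V8H77.VT.isPure_step _ i a ha) fun i hi x hx a k hk ha => ?_
      refine Pool.Agent.V8H77.VT.dom_of_tate Z X ?_ hx hk ha
      rcases Nat.lt_or_ge i 2 with h | h
      · exact hlow X hX i (by omega)
      · exact h2 X hX i h hi
    have hst : ∀ A, StrongTate Z X A := strongTate_of_span Z (fun A => (hAV A).2) hspan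
      (fun i r s s' a A U hs hs' hss ha hU hU0 hrel =>
        Pool.Agent.V8H77.VT.weight_of_relation (T.m_pos X) i r s s' a A U hs hs' hss ha hU hU0
          hrel)
    exact fun A => ⟨hst A, generalisedTate₂_of_strong hst
      (fun m s' j a _ hs' ha => Pool.Agent.V8H77.VT.exists_factors hs' ha) A⟩

end Pool.Agent.V8H94.VT
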