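import Pool.Agent.V8H94.VT.Dom
import Pool.Agent.V8H94.CT.Pub2

/-!
# The abelian part, and Tate classes on `X × A` for dominated classes on `X`
-/

set_option autoImplicit false

namespace Pool.Agent.V8H94.VT

open Module TensorProduct Pool.Agent.V8H94.CT Pool.Agent.V8H94.TC

variable {p : ℕ} [Fact p.Prime] {Ω : Type} [Field Ω] [CharZero Ω]

/-- The diagonal. -/
theorem isHom_diag (A : AbVar p Ω) :
    CT.IsHom A (A.prod A rfl) (LinearMap.coprod LinearMap.id LinearMap.id) := by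
  refine ⟨1, 1, one_pos, one_pos, rfl, ?_⟩
  refine LinearMap.ext fun v => ?_
  obtain ⟨v, w⟩ := v
  change (LinearMap.coprod LinearMap.id LinearMap.id) (((A.F.prodMap A.F) ^ 1) (v, w)) =
    (A.F ^ 1) ((LinearMap.coprod LinearMap.id LinearMap.id) (v, w))
  simp [LinearMap.coprod_apply]

theorem tateHolds_two {S : TC.CycleSystem p Ω} (h : TateInDegreeTwo S) (A : AbVar p Ω) :
    TC.TateHolds S A 2 := by
  intro x hx
  obtain ⟨hx, s, hs, hT⟩ := hx
  have h1 := mem_span_eigen A.F A.span_eigen (2 * 2) s _ x hx hT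
  refine Submodule.span_le.2 ?_ h1
  rintro _ ⟨v, a, hv0, hv, hprod, rfl⟩
  have e0 : ExteriorAlgebra.ιMulti Ω (2 * 2) v = wedge [v 0, v 1, v 2, v 3] := by
    rw [← ofFn_wedge]
    rfl
  let il : A.H →ₗ[Ω] A.H × A.H := LinearMap.inl Ω A.H A.H
  let ir : A.H →ₗ[Ω] A.H × A.H := LinearMap.inr Ω A.H A.H
  let d : A.H × A.H →ₗ[Ω] A.H := LinearMap.coprod LinearMap.id LinearMap.id
  have hdl : ∀ v, d (il v) = v := fun v => by simp [d, il]
  have hdr : ∀ v, d (ir v) = v := fun v => by simp [d, ir]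
  let l : List (Ω × (A.H × A.H)) := [(a 0, il (v 0)), (a 1, il (v 1)), (a 2, ir (v 2)), (a 3, ir (v 3))]
  have hl : ∀ x ∈ l, (A.F.prodMap A.F) x.2 = x.1 • x.2 := by
    intro x hx
    have e1 : ∀ i, (A.F.prodMap A.F) (il (v i)) = a i • il (v i) := fun i => by
      simp [il, hv i]
    have e2 : ∀ i, (A.F.prodMap A.F) (ir (v i)) = a i • ir (v i) := fun i => by
      simp [ir, hv i]
    simp only [l, List.mem_cons, List.not_mem_nil, or_false] at hx
    rcases hx with rfl | rfl | rfl | rfl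
    · exact e1 0
    · exact e1 1
    · exact e2 2
    · exact e2 3
  have hfst : pullFst A A rfl (wedge [v 0, v 1] : ExteriorAlgebra Ω A.H) =
      (wedge [il (v 0), il (v 1)] : ExteriorAlgebra Ω (A.H × A.H)) :=
    map_wedge il [v 0, v 1]
  have hsnd : pullSnd A A rfl (wedge [v 2, v 3] : ExteriorAlgebra Ω A.H) =
      (wedge [ir (v 2), ir (v 3)] : ExteriorAlgebra Ω (A.H × A.H)) :=
    map_wedge ir [v 2, v 3]
  have hmul : pullFst A A rfl (wedge [v 0, v 1] : ExteriorAlgebra Ω A.H) *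
      pullSnd A A rfl (wedge [v 2, v 3] : ExteriorAlgebra Ω A.H) =
      (wedge (l.map Prod.snd) : ExteriorAlgebra Ω (A.H × A.H)) := by
    rw [hfst, hsnd]
    exact (wedge_append [il (v 0), il (v 1)] [ir (v 2), ir (v 3)]).symm
  have hT' : TC.IsTate (A.prod A rfl) 2 (pullFst A A rfl (wedge [v 0, v 1] : ExteriorAlgebra Ω A.H) *
      pullSnd A A rfl (wedge [v 2, v 3] : ExteriorAlgebra Ω A.H)) := by
    rw [hmul]
    refine ⟨wedge_mem (R := Ω) (l.map Prod.snd), s, hs, ?_⟩
    have e1 : ExteriorAlgebra.map ((A.F.prodMap A.F : A.H × A.H →ₗ[Ω] A.H × A.H) ^ s)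
        (wedge (l.map Prod.snd)) = (l.map Prod.fst).prod ^ s • wedge (R := Ω) (l.map Prod.snd) :=
      map_pow_wedge_eigen _ l hl s
    have e2 : (l.map Prod.fst).prod ^ s = (p : Ω) ^ (A.m * 2 * s) := by
      rw [← hprod]
      simp only [l, List.map_cons, List.map_nil, List.prod_cons, List.prod_nil, mul_one]
      rw [Fin.prod_univ_four, mul_pow, mul_pow, mul_pow]
      ring
    exact e1.trans (congrArg (fun t => t • _) e2)
  have h3 := h A A rfl _ (wedge_mem (R := Ω) [v 0, v 1]) _ (wedge_mem (R := Ω) [v 2, v 3]) hT'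
  rw [hmul] at h3
  have h4 := S.pull_mem A (A.prod A rfl) d ((isHom_iff _ _ _).2 (isHom_diag A)) _ h3
  have h5 : pull A (A.prod A rfl) d (wedge (l.map Prod.snd) : ExteriorAlgebra Ω (A.H × A.H)) =
      (wedge [v 0, v 1, v 2, v 3] : ExteriorAlgebra Ω A.H) := by
    refine (map_wedge d (l.map Prod.snd)).trans ?_
    simp only [l, List.map_cons, List.map_nil, hdl, hdr]
  rw [h5] at h4
  rw [SetLike.mem_coe, e0]
  exact h4

/-- All Tate classes on all abelian varieties. -/
theorem tateHolds_all [IsAlgClosed Ω] {S : TC.CycleSystem p Ω} (hdiv : ∀ A, TC.TateHolds S A 1)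
    (h : TateInDegreeTwo S) (A : AbVar p Ω) : TC.GeneralisedTate S A ∧ ∀ r, TC.TateHolds S A r := by
  obtain ⟨B, y, z, hAB, _, _, _, hB⟩ := generalised_of_one_class A
  have h1 := hB S (hdiv B)
  have h2 := (h1.out 2 0).1 (tateHolds_two h B)
  have h3 := (h1.out 2 1).1 (tateHolds_two h B)
  exact ⟨h2 A hAB, fun r => h3 A hAB r⟩

end Pool.Agent.V8H94.VT
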