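import Pool.Agent.V8H94.VT.Defs

/-!
# The generalised Tate conjecture for `X × A`
-/

set_option autoImplicit false

namespace Pool.Agent.V8H94.VT

open Module TensorProduct Pool.Agent.V8H94.CT Pool.Agent.V8H94.TC

variable {p : ℕ} [Fact p.Prime] {Ω : Type} [Field Ω] [CharZero Ω]

/-- The class `t` on `X × A` is a generalised eigenvector of the Frobenius endomorphism `F ^ s` of
a field with `q = p ^ (m X * s)` elements, with an eigenvalue of weight `j + 2 * r` (so that `t` has
degree `j + 2 * r`, by Deligne) which is `q ^ r` times an algebraic integer. -/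
def IsEffective₂ (T : Cohomology p Ω) (X : T.V) (A : AbVar p Ω) (j r : ℕ) (t : Coh₂ T X A) : Prop :=
  ∃ (s s' k : ℕ) (a : Ω), 0 < s ∧ 0 < s' ∧ T.m X * s = A.m * s' ∧
    ((TensorProduct.map (T.F X ^ s) (pullLin A A (frobPow A s')) -
      a • LinearMap.id) ^ k : Coh₂ T X A →ₗ[Ω] Coh₂ T X A) t = 0 ∧
    IsPure p (T.m X * s * (j + 2 * r)) a ∧ IsIntegral ℤ (a / (p : Ω) ^ (T.m X * s * r))

/-- The class `t` on `X × A` is the image of a class `y` of degree `j` on an abelian variety `B` of
dimension `g` under a correspondence `z` in the system, a class of codimension `g + r` on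
`X × A × B`: the product `z * y` is the exterior product of `t` with the class of a point of `B`.
If `z` is a linear combination of classes of algebraic cycles then `t` is supported in codimension
`r`, since the projections of these cycles to `X × A` have codimension at least `r`. -/
def IsImage₂ {T : Cohomology p Ω} (Z : Cycles T) (X : T.V) (A : AbVar p Ω) (j r : ℕ)
    (t : Coh₂ T X A) : Prop :=
  ∃ (B : AbVar p Ω) (hm : A.m = B.m) (g : ℕ) (b : Basis (Fin (2 * g)) Ω B.H) (y : Coh B)
    (z : Coh₂ T X (A.prod B hm)), y ∈ deg B j ∧ z ∈ Z.C X (A.prod B hm) ∧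
    IsGenTate T X (A.prod B hm) (g + r) z ∧
    mapTimes T X (A.prod B hm) (A.prod B hm) LinearMap.id
        (mulLin (A.prod B hm) (pullSnd A B hm y)) z =
      mapTimes T X A (A.prod B hm) LinearMap.id (pointLin A B hm b) t

/-- The generalised Tate conjecture for `X × A`. -/
def GeneralisedTate₂ {T : Cohomology p Ω} (Z : Cycles T) (X : T.V) (A : AbVar p Ω) : Prop :=
  ∀ (j r : ℕ) (t : Coh₂ T X A), IsEffective₂ T X A j r t → IsImage₂ Z X A j r t

end Pool.Agent.V8H94.VT
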