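import Pool.Agent.V8H94.VT.Lef
import Pool.Agent.V8H94.VT.Abel
import Pool.Agent.V8H94.VT.Defs2

/-!
# Codimension two for products of two surfaces
-/

set_option autoImplicit false

namespace Pool.Agent.V8H94.VT

open Module TensorProduct Pool.Agent.V8H94.CT Pool.Agent.V8H94.TC

variable {p : ℕ} [Fact p.Prime] {Ω : Type} [Field Ω] [CharZero Ω]

/-- The spanning property for products. -/
theorem span_dom_product {T : Cohomology p Ω} (Z : Cycles T) {W : Set T.V}
    (hW : ∀ X ∈ W, Submodule.span Ω {x | IsDom Z X x} = ⊤)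
    (hext : ∀ (X Y : T.V) (x : T.H X) (y : T.H Y), IsDom Z X x → IsDom Z Y y →
      IsDom Z (T.prod X Y) (T.ext X Y x y)) {X : T.V} (hX : IsProduct T W X) :
    Submodule.span Ω {x | IsDom Z X x} = ⊤ := by
  induction hX with
  | of X hX => exact hW X hX
  | prod X Y _ _ ihX ihY =>
    rw [eq_top_iff, ← span_bilin (T.ext X Y) ihX ihY (T.span_ext X Y)]
    refine Submodule.span_mono ?_
    rintro _ ⟨x, hx, y, hy, rfl⟩
    exact hext X Y x y hx hy

theorem tateInDegree_of_strong {T : Cohomology p Ω} {Z : Cycles T} {X : T.V}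
    (h : ∀ A, StrongTate Z X A) (i : ℕ) : TateInDegree Z X i := fun B x _ b _ ht =>
  h B i _ ht

theorem tateInDegreeTwo_of {S : TC.CycleSystem p Ω} (h : ∀ A r, TC.TateHolds S A r) :
    TateInDegreeTwo S := fun A B hm _ _ _ _ ht => h (A.prod B hm) 2 _ ht

end Pool.Agent.V8H94.VT
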