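import Pool.Agent.V8H94.VT.Strong

/-!
# Hard Lefschetz
-/

set_option autoImplicit false

namespace Pool.Agent.V8H94.VT

open Module TensorProduct Pool.Agent.V8H94.CT Pool.Agent.V8H94.TC

variable {p : ℕ} [Fact p.Prime] {Ω : Type} [Field Ω] [CharZero Ω]

theorem L_nilp (T : Cohomology p Ω) (X : T.V) (a : Ω) (k : ℕ) (x : T.H X) :
    ((T.F X - ((p : Ω) ^ T.m X * a) • LinearMap.id) ^ k : T.H X →ₗ[Ω] T.H X) (T.L X x) =
      ((p : Ω) ^ T.m X) ^ k •
        T.L X (((T.F X - a • LinearMap.id) ^ k : T.H X →ₗ[Ω] T.H X) x) := by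
  induction k generalizing x with
  | zero => simp
  | succ k ih =>
    rw [pow_succ, Module.End.mul_apply]
    have h1 : (T.F X - ((p : Ω) ^ T.m X * a) • LinearMap.id : T.H X →ₗ[Ω] T.H X) (T.L X x) =
        (p : Ω) ^ T.m X • T.L X ((T.F X - a • LinearMap.id : T.H X →ₗ[Ω] T.H X) x) := by
      rw [LinearMap.sub_apply, LinearMap.sub_apply, T.F_L, LinearMap.smul_apply,
        LinearMap.smul_apply, LinearMap.id_apply, LinearMap.id_apply, map_sub, map_smul, smul_sub,
        smul_smul]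
    rw [h1, map_smul, ih, smul_smul, pow_succ (T.F X - a • LinearMap.id : T.H X →ₗ[Ω] T.H X),
      Module.End.mul_apply]
    congr 1
    ring

/-- Dominated classes are stable under the Lefschetz operator. -/
theorem IsDom.L {T : Cohomology p Ω} {Z : Cycles T} {X : T.V} {x : T.H X} (hx : IsDom Z X x)
    (hpure : ∀ (i : ℕ) (a : Ω), IsPure p (T.m X * i) a →
      IsPure p (T.m X * (i + 2)) ((p : Ω) ^ T.m X * a)) : IsDom Z X (T.L X x) := by
  obtain ⟨i, k, c, a, hxi, hk, ha, hdom⟩ := hx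
  refine ⟨i + 2, k, c + 1, (p : Ω) ^ T.m X * a, T.L_gr X i x hxi, ?_, hpure i a ha, fun t ht => ?_⟩
  · rw [L_nilp, hk, map_zero, smul_zero]
  · obtain ⟨B, N, g, e, b, Y, R, hBm, hY, hR, hP, hN, he, hic, hrel, hYR, hC⟩ := hdom t ht
    refine ⟨B, N, g, e, b, Y, R, hBm, hY, hR, hP, hN, he, by omega, ?_, hYR, ?_⟩
    · have e1 : ((p : Ω) ^ T.m X * a) ^ t * (Y.map Prod.fst).prod =
          (p : Ω) ^ (T.m X * t) * (a ^ t * (Y.map Prod.fst).prod) := by
        rw [mul_pow, ← pow_mul]; ring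
      rw [e1, mul_pow, hrel, ← mul_pow, ← pow_add]
      congr 2
      ring
    · have h1 := Z.L_mem X B _ hC
      rw [mapTimes_times] at h1
      exact h1

/-- The cohomology of `X` is dominated by abelian varieties if it is so up to the middle degree. -/
theorem span_dom [IsAlgClosed Ω] {T : Cohomology p Ω} (Z : Cycles T) (X : T.V)
    (hpure : ∀ (i : ℕ) (a : Ω), IsPure p (T.m X * i) a →
      IsPure p (T.m X * (i + 2)) ((p : Ω) ^ T.m X * a))
    (h : ∀ i ≤ T.dim X, ∀ x ∈ T.gr X i, ∀ (a : Ω) (k : ℕ),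
      ((T.F X - a • LinearMap.id) ^ k : T.H X →ₗ[Ω] T.H X) x = 0 → IsPure p (T.m X * i) a →
        IsDom Z X x) :
    Submodule.span Ω {x | IsDom Z X x} = ⊤ := by
  set S := Submodule.span Ω {x | IsDom Z X x} with hS
  have hlow : ∀ i ≤ T.dim X, T.gr X i ≤ S := by
    intro i hi
    refine (le_span_gen (T.F X) (T.gr X i) (T.F_gr X i)).trans ?_
    refine Submodule.span_mono ?_
    rintro x ⟨hx, a, k, hk, y, hy, hy0, hya⟩
    exact h i hi x hx a k hk (T.pure X i y hy a hy0 hya)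
  have hL : ∀ x ∈ S, T.L X x ∈ S := by
    intro x hx
    have h1 : S ≤ S.comap (T.L X) := by
      rw [hS]
      refine Submodule.span_le.2 ?_
      intro x hx
      exact Submodule.subset_span (IsDom.L hx hpure)
    exact h1 hx
  have hLn : ∀ (n : ℕ), ∀ x ∈ S, (T.L X ^ n) x ∈ S := by
    intro n
    induction n with
    | zero => intro x hx; exact hx
    | succ n ih =>
      intro x hx
      rw [pow_succ', Module.End.mul_apply]
      exact hL _ (ih x hx)
  rw [eq_top_iff, ← T.span_gr X]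
  refine iSup_le fun j => ?_
  rcases Nat.le_total j (T.dim X) with hj | hj
  · exact hlow j hj
  · obtain ⟨i, rfl⟩ := Nat.exists_eq_add_of_le hj
    intro y hy
    obtain ⟨x, hx, rfl⟩ := T.lefschetz X i y hy
    exact hLn i x (hlow _ (Nat.sub_le _ _) hx)

end Pool.Agent.V8H94.VT
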