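import Pool.Agent.V8H94.CT.PubDefs

/-!
# Smooth projective varieties over finite fields: cohomology and cycles
-/

set_option autoImplicit false

namespace Pool.Agent.V8H94.VT

open Module TensorProduct Pool.Agent.V8H94.CT Pool.Agent.V8H94.TC

/-- All complex conjugates of the algebraic integer `a` have absolute value `p ^ (k / 2)`. -/
def IsPure (p k : ℕ) {Ω : Type} [Field Ω] [CharZero Ω] (a : Ω) : Prop :=
  IsIntegral ℤ a ∧ ∀ z : ℂ, Polynomial.aeval z (minpoly ℚ a) = 0 → ‖z‖ ^ 2 = (p : ℝ) ^ k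

/-- The cohomology of smooth projective varieties `X` over finite fields of characteristic `p`. -/
structure Cohomology (p : ℕ) [Fact p.Prime] (Ω : Type) [Field Ω] [CharZero Ω] : Type 1 where
  /-- the varieties -/
  V : Type
  /-- `X` is defined over the field with `p ^ m X` elements -/
  m : V → ℕ
  m_pos : ∀ X, 0 < m X
  dim : V → ℕ
  /-- the cohomology -/
  H : V → Type
  [grp : ∀ X, AddCommGroup (H X)]
  [mod : ∀ X, Module Ω (H X)]
  [fin : ∀ X, Module.Finite Ω (H X)]
  /-- the classes of degree `i` -/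
  gr : ∀ X, ℕ → Submodule Ω (H X)
  /-- the Frobenius endomorphism -/
  F : ∀ X, H X →ₗ[Ω] H X
  /-- the cup product with the class of an ample divisor -/
  L : ∀ X, H X →ₗ[Ω] H X
  span_gr : ∀ X, ⨆ i, gr X i = ⊤
  F_gr : ∀ X i, ∀ x ∈ gr X i, F X x ∈ gr X i
  L_gr : ∀ X i, ∀ x ∈ gr X i, L X x ∈ gr X (i + 2)
  F_L : ∀ X x, F X (L X x) = (p : Ω) ^ m X • L X (F X x)
  /-- Deligne -/
  pure : ∀ X i, ∀ x ∈ gr X i, ∀ a : Ω, x ≠ 0 → F X x = a • x → IsPure p (m X * i) a
  /-- hard Lefschetz -/
  lefschetz : ∀ X i, ∀ y ∈ gr X (dim X + i), ∃ x ∈ gr X (dim X - i), y = (L X ^ i) x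
  /-- products, over a common extension of the fields of definition -/
  prod : V → V → V
  m_prod : ∀ X Y, m (prod X Y) = m X * m Y
  /-- the exterior product of cohomology classes -/
  ext : ∀ X Y, H X →ₗ[Ω] H Y →ₗ[Ω] H (prod X Y)
  ext_gr : ∀ X Y i j, ∀ x ∈ gr X i, ∀ y ∈ gr Y j, ext X Y x y ∈ gr (prod X Y) (i + j)
  F_ext : ∀ X Y x y, F (prod X Y) (ext X Y x y) = ext X Y ((F X ^ m Y) x) ((F Y ^ m X) y)
  /-- Künneth -/
  span_ext : ∀ X Y, Submodule.span Ω {z | ∃ x y, z = ext X Y x y} = ⊤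

attribute [instance] Cohomology.grp Cohomology.mod Cohomology.fin

variable {p : ℕ} [Fact p.Prime] {Ω : Type} [Field Ω] [CharZero Ω]

/-- The cohomology of `X × A`, `A` an abelian variety. -/
def Coh₂ (T : Cohomology p Ω) (X : T.V) (A : AbVar p Ω) : Type := T.H X ⊗[Ω] Coh A

noncomputable instance (T : Cohomology p Ω) (X : T.V) (A : AbVar p Ω) :
    AddCommGroup (Coh₂ T X A) := (inferInstance : AddCommGroup (T.H X ⊗[Ω] Coh A))

noncomputable instance (T : Cohomology p Ω) (X : T.V) (A : AbVar p Ω) :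
    Module Ω (Coh₂ T X A) := (inferInstance : Module Ω (T.H X ⊗[Ω] Coh A))

/-- The exterior product of a class on `X` and a class on `A`. -/
noncomputable def times (T : Cohomology p Ω) (X : T.V) (A : AbVar p Ω) (x : T.H X) (a : Coh A) :
    Coh₂ T X A := x ⊗ₜ[Ω] a

/-- The map `f ⊗ g` from the cohomology of `X × A` to the cohomology of `X × B`. -/
noncomputable def mapTimes (T : Cohomology p Ω) (X : T.V) (A B : AbVar p Ω) (f : T.H X →ₗ[Ω] T.H X)
    (g : Coh A →ₗ[Ω] Coh B) (t : Coh₂ T X A) : Coh₂ T X B := TensorProduct.map f g t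

/-- The pull-back on cohomology as a linear map. -/
noncomputable def pullLin (A B : AbVar p Ω) (h : B.H →ₗ[Ω] A.H) : Coh B →ₗ[Ω] Coh A :=
  (ExteriorAlgebra.map h).toLinearMap

/-- The cup product with a class on the right. -/
noncomputable def mulLin (A : AbVar p Ω) (s : Coh A) : Coh A →ₗ[Ω] Coh A where
  toFun x := x * s
  map_add' x y := add_mul x y s
  map_smul' c x := Algebra.smul_mul_assoc c x s

/-- The exterior product with the class of a point of `B`. -/
noncomputable def pointLin (A B : AbVar p Ω) (hm : A.m = B.m) {n : ℕ} (b : Basis (Fin n) Ω B.H) :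
    Coh A →ₗ[Ω] Coh (A.prod B hm) :=
  mulLin (A.prod B hm) (pullSnd A B hm (point B b)) ∘ₗ pullLin (A.prod B hm) A (inclFst A B hm)

/-- Algebraic cycles on the varieties and on their products with abelian varieties: systems of
cohomology classes `S.C A` on the abelian varieties `A` and `C X A` on `X × A` with the formal
properties of the linear combinations of the classes of algebraic cycles over the algebraic
closure. -/
structure Cycles (T : Cohomology p Ω) : Type 1 where
  S : CycleSystem p Ω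
  C : ∀ (X : T.V) (A : AbVar p Ω), Submodule Ω (Coh₂ T X A)
  /-- cup product with the class of an ample divisor on `X` -/
  L_mem : ∀ X A, ∀ t ∈ C X A, mapTimes T X A A (T.L X) LinearMap.id t ∈ C X A
  /-- cup product with a class on `A` -/
  mul_mem : ∀ X A, ∀ t ∈ C X A, ∀ s ∈ S.C A, mapTimes T X A A LinearMap.id (mulLin A s) t ∈ C X A
  /-- pull-back -/
  pull_mem : ∀ X A B (h : B.H →ₗ[Ω] A.H), IsHom A B h → ∀ t ∈ C X B,
    mapTimes T X B A LinearMap.id (pullLin A B h) t ∈ C X A
  /-- push-forward -/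
  push_mem : ∀ X A B (hm : A.m = B.m) (n : ℕ) (b : Basis (Fin n) Ω B.H) (t : Coh₂ T X A),
    mapTimes T X A (A.prod B hm) LinearMap.id (pointLin A B hm b) t ∈ C X (A.prod B hm) → t ∈ C X A
  /-- exterior products -/
  ext_mem : ∀ X Y A B (hm : A.m = B.m) (i j k l : ℕ), ∀ x ∈ T.gr X i, ∀ a ∈ deg A j,
    ∀ y ∈ T.gr Y k, ∀ b ∈ deg B l, times T X A x a ∈ C X A → times T Y B y b ∈ C Y B →
      times T (T.prod X Y) (A.prod B hm) (T.ext X Y x y) (pullFst A B hm a * pullSnd A B hm b) ∈
        C (T.prod X Y) (A.prod B hm)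

/-- The class `t` on `X × A` is a generalised Tate class of codimension `r` over a finite extension of
the fields of definition: a power of `F ^ s - q ^ r` kills it, where `F ^ s` is the Frobenius
endomorphism of the field with `q = p ^ (m X * s)` elements. -/
def IsGenTate (T : Cohomology p Ω) (X : T.V) (A : AbVar p Ω) (r : ℕ) (t : Coh₂ T X A) : Prop :=
  ∃ s s' k : ℕ, 0 < s ∧ 0 < s' ∧ T.m X * s = A.m * s' ∧
    ((TensorProduct.map (T.F X ^ s) (pullLin A A (frobPow A s')) -
      (p : Ω) ^ (T.m X * s * r) • LinearMap.id) ^ k : Coh₂ T X A →ₗ[Ω] Coh₂ T X A) t = 0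

/-- The strong Tate conjecture for `X × A` in all codimensions. -/
def StrongTate {T : Cohomology p Ω} (Z : Cycles T) (X : T.V) (A : AbVar p Ω) : Prop :=
  ∀ (r : ℕ) (t : Coh₂ T X A), IsGenTate T X A r t → t ∈ Z.C X A

/-- The strong Tate conjecture for the classes in `H ^ i (X) ⊗ H ^ i (B)`, for all abelian varieties
`B`. -/
def TateInDegree {T : Cohomology p Ω} (Z : Cycles T) (X : T.V) (i : ℕ) : Prop :=
  ∀ (B : AbVar p Ω), ∀ x ∈ T.gr X i, ∀ b ∈ deg B i,
    IsGenTate T X B i (times T X B x b) → times T X B x b ∈ Z.C X B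

/-- The Tate conjecture for the classes in `H ^ 2 (A) ⊗ H ^ 2 (B)` for abelian varieties. -/
def TateInDegreeTwo (S : CycleSystem p Ω) : Prop :=
  ∀ (A B : AbVar p Ω) (hm : A.m = B.m), ∀ a ∈ deg A 2, ∀ b ∈ deg B 2,
    IsTate (A.prod B hm) 2 (pullFst A B hm a * pullSnd A B hm b) →
      pullFst A B hm a * pullSnd A B hm b ∈ S.C (A.prod B hm)

/-- The products of varieties in the set `W`. -/
inductive IsProduct (T : Cohomology p Ω) (W : Set T.V) : T.V → Prop
  | of (X : T.V) : X ∈ W → IsProduct T W X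
  | prod (X Y : T.V) : IsProduct T W X → IsProduct T W Y → IsProduct T W (T.prod X Y)

end Pool.Agent.V8H94.VT
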