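import Pool.Agent.V8H94.VT.Main

/-!
# The generalised Tate conjecture for `X × A`
-/

set_option autoImplicit false

namespace Pool.Agent.V8H94.VT

open Module TensorProduct Polynomial Pool.Agent.V8H94.CT Pool.Agent.V8H94.TC

variable {p : ℕ} [Fact p.Prime] {Ω : Type} [Field Ω] [CharZero Ω]

theorem isPure_iff_hasAbs [IsAlgClosed Ω] {k : ℕ} {a : Ω} :
    IsPure p k a ↔ IsIntegral ℤ a ∧ HasAbs (Real.sqrt ((p : ℝ) ^ k)) a := by
  have hpk : (0 : ℝ) ≤ (p : ℝ) ^ k := by positivity
  constructor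
  · rintro ⟨h1, h2⟩
    refine ⟨h1, isAlgebraic_of_isIntegral h1, fun z hz => ?_⟩
    rw [← h2 z hz, Real.sqrt_sq (norm_nonneg z)]
  · rintro ⟨h1, _, h2⟩
    exact ⟨h1, fun z hz => by rw [h2 z hz, Real.sq_sqrt hpk]⟩

theorem isPure_div [IsAlgClosed Ω] {N j r : ℕ} {a : Ω} (ha : IsPure p (N * (j + 2 * r)) a)
    (hint : IsIntegral ℤ (a / (p : Ω) ^ (N * r))) : IsPure p (N * j) (a / (p : Ω) ^ (N * r)) := by
  rw [isPure_iff_hasAbs] at ha ⊢
  refine ⟨hint, ?_⟩
  have hp0 : (0 : ℝ) < p := Nat.cast_pos.2 (Fact.out : p.Prime).pos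
  have h1 : HasAbs (((p ^ (N * r) : ℕ) : ℝ)) (((p ^ (N * r) : ℕ) : Ω)) := HasAbs.natCast _
  have h2 := ha.2.mul h1.inv
  rw [← div_eq_mul_inv, ← div_eq_mul_inv, Nat.cast_pow, Nat.cast_pow] at h2
  have e : Real.sqrt ((p : ℝ) ^ (N * (j + 2 * r))) / (p : ℝ) ^ (N * r) =
      Real.sqrt ((p : ℝ) ^ (N * j)) := by
    have h3 : (p : ℝ) ^ (N * (j + 2 * r)) = (p : ℝ) ^ (N * j) * ((p : ℝ) ^ (N * r)) ^ 2 := by
      rw [← pow_mul, ← pow_add]
      congr 1
      ring
    rw [h3, Real.sqrt_mul (by positivity), Real.sqrt_sq (by positivity)]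
    exact mul_div_cancel_right₀ _ (by positivity)
  rwa [e] at h2

section

variable {E E' E'' : Type} [AddCommGroup E] [Module Ω E] [AddCommGroup E'] [Module Ω E']
  [AddCommGroup E''] [Module Ω E'']

theorem semi_one (G : E →ₗ[Ω] E) (K : E' →ₗ[Ω] E') (K' : E'' →ₗ[Ω] E'') (φ : E' →ₗ[Ω] E'')
    (β : Ω) (h : ∀ c, K' (φ c) = β • φ (K c)) (t : E ⊗[Ω] E') :
    TensorProduct.map G K' (TensorProduct.map LinearMap.id φ t) =
      β • TensorProduct.map LinearMap.id φ (TensorProduct.map G K t) := by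
  induction t using TensorProduct.induction_on with
  | zero => simp
  | tmul x y => simp [h]
  | add x y hx hy => rw [map_add, map_add, hx, hy, map_add, map_add, smul_add]

theorem semi_pow (G : E →ₗ[Ω] E) (K : E' →ₗ[Ω] E') (K' : E'' →ₗ[Ω] E'') (φ : E' →ₗ[Ω] E'')
    (β : Ω) (h : ∀ c, K' (φ c) = β • φ (K c)) (a : Ω) (n : ℕ) (t : E ⊗[Ω] E') :
    ((TensorProduct.map G K' - (a * β) • LinearMap.id) ^ n : E ⊗[Ω] E'' →ₗ[Ω] E ⊗[Ω] E'')
        (TensorProduct.map LinearMap.id φ t) =
      (β ^ n) • TensorProduct.map LinearMap.id φ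
        (((TensorProduct.map G K - a • LinearMap.id) ^ n : E ⊗[Ω] E' →ₗ[Ω] E ⊗[Ω] E') t) := by
  induction n generalizing t with
  | zero => simp
  | succ n ih =>
    rw [pow_succ, Module.End.mul_apply, pow_succ (TensorProduct.map G K - a • LinearMap.id),
      Module.End.mul_apply]
    have h1 : (TensorProduct.map G K' - (a * β) • LinearMap.id : E ⊗[Ω] E'' →ₗ[Ω] E ⊗[Ω] E'')
        (TensorProduct.map LinearMap.id φ t) = β • TensorProduct.map LinearMap.id φ
          ((TensorProduct.map G K - a • LinearMap.id : E ⊗[Ω] E' →ₗ[Ω] E ⊗[Ω] E') t) := by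
      rw [LinearMap.sub_apply, semi_one G K K' φ β h, LinearMap.sub_apply, LinearMap.smul_apply,
        LinearMap.smul_apply, LinearMap.id_apply, LinearMap.id_apply, map_sub, map_smul, smul_sub,
        smul_smul, mul_comm a]
    rw [h1, map_smul, ih, smul_smul]
    congr 1
    ring

theorem map_pow_tensor (G : E →ₗ[Ω] E) (K : E' →ₗ[Ω] E') (n : ℕ) :
    (TensorProduct.map G K) ^ n = TensorProduct.map (G ^ n) (K ^ n) := by
  induction n with
  | zero =>
    rw [pow_zero, pow_zero, pow_zero]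
    exact (TensorProduct.map_id (R := Ω) (M := E) (N := E')).symm
  | succ n ih =>
    rw [pow_succ, ih, pow_succ, pow_succ]
    exact (TensorProduct.map_comp (G ^ n) (K ^ n) G K).symm

theorem gen_tensor_pow {G G' : E →ₗ[Ω] E} {K K'' : E' →ₗ[Ω] E'} {c c' : Ω} {k e : ℕ}
    {z : E ⊗[Ω] E'} (hG : G ^ e = G') (hK : K ^ e = K'') (hc : c ^ e = c')
    (h : ((TensorProduct.map G K - c • LinearMap.id) ^ k : E ⊗[Ω] E' →ₗ[Ω] E ⊗[Ω] E') z = 0) :
    ((TensorProduct.map G' K'' - c' • LinearMap.id) ^ k : E ⊗[Ω] E' →ₗ[Ω] E ⊗[Ω] E') z = 0 := by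
  subst hG hK hc
  rw [← map_pow_tensor]
  exact gen_pow _ e h

end

theorem pullLin_pow (A : AbVar p Ω) (s n : ℕ) :
    (pullLin A A (frobPow A s)) ^ n = pullLin A A (frobPow A (s * n)) := by
  refine LinearMap.ext fun c => ?_
  have h1 : ∀ (n : ℕ) (c : ExteriorAlgebra Ω A.H),
      ((ExteriorAlgebra.map (A.F ^ s)).toLinearMap ^ n) c = ExteriorAlgebra.map (A.F ^ (s * n)) c := by
    intro n
    induction n with
    | zero =>
      intro c
      rw [mul_zero, pow_zero, pow_zero]
      exact (AlgHom.congr_fun (ExteriorAlgebra.map_id (R := Ω) (M := A.H)) c).symm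
    | succ n ih =>
      intro c
      rw [pow_succ', Module.End.mul_apply, ih]
      have h2 : (ExteriorAlgebra.map (A.F ^ s)).comp (ExteriorAlgebra.map (A.F ^ (s * n))) =
          ExteriorAlgebra.map (A.F ^ (s * (n + 1))) := by
        rw [ExteriorAlgebra.map_comp_map]
        congr 1
        rw [mul_add, mul_one, add_comm, pow_add]
        rfl
      exact AlgHom.congr_fun h2 c
  exact h1 n c

/-- The strong Tate conjecture for all `X × A` implies the generalised one. -/
theorem generalisedTate₂_of_strong [IsAlgClosed Ω] {T : Cohomology p Ω} {Z : Cycles T} {X : T.V}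
    (hX : ∀ A, StrongTate Z X A)
    (hfac : ∀ (m s' j : ℕ) (a : Ω), 0 < m → 0 < s' → IsPure p (m * s' * j) a →
      ∃ (w : List Ω) (e : ℕ), 0 < e ∧ w.length = j ∧ (∀ x ∈ w, IsWeil p m x) ∧
        (w.prod ^ s') ^ e = a ^ e) (A : AbVar p Ω) : GeneralisedTate₂ Z X A := by
  rintro j r t ⟨s, s', k, a, hs, hs', hss, ht, ha, hint⟩
  have hp : (p : Ω) ≠ 0 := Nat.cast_ne_zero.2 (Fact.out : p.Prime).ne_zero
  have ha' := isPure_div ha hint
  set a' := a / (p : Ω) ^ (T.m X * s * r) with ha'def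
  have haa' : a = a' * (p : Ω) ^ (T.m X * s * r) := by
    rw [ha'def, div_mul_cancel₀ _ (pow_ne_zero _ hp)]
  obtain ⟨w, e, he, hwl, hw, hwe⟩ := hfac A.m s' j a' A.m_pos hs' (by rw [← hss]; exact ha')
  obtain ⟨B, N, g, b, Y, R, hBm, _, hY, hR, hYw, hP, rfl, hYR⟩ := exists_basis_cover (p := p)
    (k := A.m) A.m_pos (W := {w : Ω | IsWeil p A.m w}) (fun w hw b hb => isWeil_root hw hb) w
    (fun x hx => ⟨hw x hx, hw x hx⟩)
  have hm : A.m = B.m := hBm.symm
  have hYl : Y.length = j := by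
    have := congrArg List.length hYw
    rw [List.length_map, hwl] at this
    exact this
  let ir : B.H →ₗ[Ω] A.H × B.H := LinearMap.inr Ω A.H B.H
  let il : A.H →ₗ[Ω] A.H × B.H := LinearMap.inl Ω A.H B.H
  let ζ : ExteriorAlgebra Ω B.H := wedge (R.map Prod.snd)
  let y : ExteriorAlgebra Ω B.H := wedge (Y.map Prod.snd)
  -- the correspondence
  let φ : Coh A →ₗ[Ω] Coh (A.prod B hm) :=
    mulLin (A.prod B hm) (pullSnd A B hm ζ) ∘ₗ pullLin (A.prod B hm) A (inclFst A B hm)
  let z : Coh₂ T X (A.prod B hm) := mapTimes T X A (A.prod B hm) LinearMap.id φ t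
  -- the Frobenius endomorphisms
  let K : Coh A →ₗ[Ω] Coh A := pullLin A A (frobPow A s')
  let K' : Coh (A.prod B hm) →ₗ[Ω] Coh (A.prod B hm) :=
    pullLin (A.prod B hm) (A.prod B hm) (frobPow (A.prod B hm) s')
  have hφ : ∀ c : Coh A, K' (φ c) = ((R.map Prod.fst).prod ^ s') • φ (K c) := by
    intro c
    have e1 : K' (φ c) = K' (pullLin (A.prod B hm) A (inclFst A B hm) c) *
        K' (pullSnd A B hm ζ) :=
      map_mul (ExteriorAlgebra.map (frobPow (A.prod B hm) s')) _ _
    have e2 : K' (pullSnd A B hm ζ) = (R.map Prod.fst).prod ^ s' • pullSnd A B hm ζ := by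
      have h1 : pullSnd A B hm ζ = (wedge ((R.map (fun x : Ω × B.H => (x.1, ir x.2))).map Prod.snd) :
          ExteriorAlgebra Ω (A.H × B.H)) := by
        have h2 : pullSnd A B hm ζ = ExteriorAlgebra.map ir (wedge (R.map Prod.snd)) := rfl
        rw [h2, map_wedge, List.map_map, List.map_map]
        rfl
      rw [h1]
      have h3 := map_pow_wedge_eigen (A.F.prodMap B.F) (R.map (fun x : Ω × B.H => (x.1, ir x.2)))
        (by
          intro x hx
          obtain ⟨x', hx', rfl⟩ := List.mem_map.1 hx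
          change (A.F 0, B.F x'.2) = x'.1 • ((0, x'.2) : A.H × B.H)
          rw [hR x' hx', map_zero, Prod.smul_mk, smul_zero]) s'
      have h4 : (R.map (fun x : Ω × B.H => (x.1, ir x.2))).map Prod.fst = R.map Prod.fst := by
        rw [List.map_map]; rfl
      rw [h4] at h3
      exact h3
    have e3 : K' (pullLin (A.prod B hm) A (inclFst A B hm) c) =
        pullLin (A.prod B hm) A (inclFst A B hm) (K c) := by
      have h1 : (frobPow (A.prod B hm) s') ∘ₗ (inclFst A B hm) =
          (inclFst A B hm) ∘ₗ (frobPow A s') := by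
        refine LinearMap.ext fun v => ?_
        change ((A.F.prodMap B.F) ^ s') (v, 0) = ((A.F ^ s') v, 0)
        rw [prodMap_pow_apply, map_zero]
      have h2 : (ExteriorAlgebra.map (frobPow (A.prod B hm) s')).comp
          (ExteriorAlgebra.map (inclFst A B hm)) =
          (ExteriorAlgebra.map (inclFst A B hm)).comp (ExteriorAlgebra.map (frobPow A s')) := by
        rw [ExteriorAlgebra.map_comp_map, ExteriorAlgebra.map_comp_map, h1]
      exact AlgHom.congr_fun h2 c
    rw [e1, e2, e3]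
    exact mul_smul_comm _ _ _
  -- `z` is a generalised Tate class
  have hzgen : ∀ (n : ℕ) (t' : Coh₂ T X A),
      ((TensorProduct.map (T.F X ^ s) K' - (a * (R.map Prod.fst).prod ^ s') • LinearMap.id) ^ n :
        Coh₂ T X (A.prod B hm) →ₗ[Ω] Coh₂ T X (A.prod B hm))
          (mapTimes T X A (A.prod B hm) LinearMap.id φ t') =
      (((R.map Prod.fst).prod ^ s') ^ n) • mapTimes T X A (A.prod B hm) LinearMap.id φ
        (((TensorProduct.map (T.F X ^ s) K - a • LinearMap.id) ^ n :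
          Coh₂ T X A →ₗ[Ω] Coh₂ T X A) t') :=
    fun n t' => semi_pow (E' := ExteriorAlgebra Ω A.H) (E'' := ExteriorAlgebra Ω (A.H × B.H))
      (T.F X ^ s) K K' φ _ hφ a n t'
  have hγ : ((R.map Prod.fst).prod ^ s' * a) ^ e = ((p : Ω) ^ (T.m X * s * (g + r))) ^ e := by
    have hw0 : w.prod ≠ 0 := by
      intro h0
      rw [List.prod_eq_zero_iff] at h0
      exact (hw 0 h0).ne_zero rfl
    apply mul_left_cancel₀ (pow_ne_zero e (pow_ne_zero s' hw0))
    have e1 : w.prod * (R.map Prod.fst).prod = ((p : Ω) ^ A.m) ^ g := hYR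
    calc (w.prod ^ s') ^ e * ((R.map Prod.fst).prod ^ s' * a) ^ e
        = ((w.prod * (R.map Prod.fst).prod) ^ s' * a) ^ e := by
          rw [← mul_pow, mul_pow (w.prod)]; ring
      _ = ((p : Ω) ^ (T.m X * s * g) * a) ^ e := by
          rw [e1, ← pow_mul, ← pow_mul]
          congr 3
          rw [hss]; ring
      _ = a' ^ e * ((p : Ω) ^ (T.m X * s * (g + r))) ^ e := by
          rw [haa', ← mul_pow]
          congr 1
          rw [mul_add, pow_add]
          ring
      _ = _ := by rw [hwe]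
  have hzT : IsGenTate T X (A.prod B hm) (g + r) z := by
    refine ⟨s * e, s' * e, k, Nat.mul_pos hs he, Nat.mul_pos hs' he, ?_, ?_⟩
    · change T.m X * (s * e) = A.m * (s' * e)
      rw [← mul_assoc, hss, mul_assoc]
    · have h1 := hzgen k t
      rw [ht] at h1
      have h2 : ((TensorProduct.map (T.F X ^ s) K' -
          (a * (R.map Prod.fst).prod ^ s') • LinearMap.id) ^ k :
          Coh₂ T X (A.prod B hm) →ₗ[Ω] Coh₂ T X (A.prod B hm)) z = 0 := by
        refine h1.trans ?_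
        have h3 : mapTimes T X A (A.prod B hm) LinearMap.id φ 0 = 0 :=
          map_zero (TensorProduct.map LinearMap.id φ)
        rw [h3, smul_zero]
      have h6 : (a * (R.map Prod.fst).prod ^ s') ^ e = (p : Ω) ^ (T.m X * (s * e) * (g + r)) := by
        rw [mul_comm a, hγ, ← pow_mul]
        congr 1
        ring
      exact gen_tensor_pow (E' := ExteriorAlgebra Ω (A.H × B.H)) (pow_mul (T.F X) s e).symm
        (pullLin_pow (A.prod B hm) s' e) h6 h2
  have hzmem : z ∈ Z.C X (A.prod B hm) := hX (A.prod B hm) (g + r) z hzT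
  have hkey : ∀ (ε : Ω), (wedge ((R.map Prod.snd) ++ (Y.map Prod.snd)) : ExteriorAlgebra Ω B.H) =
      ε • ExteriorAlgebra.ιMulti Ω (2 * g) b → ∀ c : Coh A,
      mulLin (A.prod B hm) (pullSnd A B hm y) (φ c) = ε • pointLin A B hm b c := by
    intro ε hε c
    have e1 : mulLin (A.prod B hm) (pullSnd A B hm y) (φ c) =
        (pullLin (A.prod B hm) A (inclFst A B hm) c * pullSnd A B hm ζ) * pullSnd A B hm y := rfl
    have e2 : pullSnd A B hm ζ * pullSnd A B hm y = ε • pullSnd A B hm (point B b) := by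
      have e3 : pullSnd A B hm ζ * pullSnd A B hm y =
          ExteriorAlgebra.map ir (wedge ((R.map Prod.snd) ++ (Y.map Prod.snd))) := by
        rw [wedge_append, map_mul]
        rfl
      rw [e3, hε, map_smul]
      rfl
    rw [e1, mul_assoc, e2, mul_smul_comm]
    rfl
  have hfin : ∀ (y' : Coh B), (∀ c : Coh A, mulLin (A.prod B hm) (pullSnd A B hm y') (φ c) =
      pointLin A B hm b c) → mapTimes T X (A.prod B hm) (A.prod B hm) LinearMap.id
        (mulLin (A.prod B hm) (pullSnd A B hm y')) z =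
      mapTimes T X A (A.prod B hm) LinearMap.id (pointLin A B hm b) t := by
    intro y' hy'
    have e1 : mapTimes T X (A.prod B hm) (A.prod B hm) LinearMap.id
        (mulLin (A.prod B hm) (pullSnd A B hm y')) z =
        TensorProduct.map (LinearMap.id : T.H X →ₗ[Ω] T.H X)
          (mulLin (A.prod B hm) (pullSnd A B hm y'))
          (TensorProduct.map (LinearMap.id : T.H X →ₗ[Ω] T.H X) φ t) := rfl
    have e2 : mulLin (A.prod B hm) (pullSnd A B hm y') ∘ₗ φ = pointLin A B hm b :=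
      LinearMap.ext hy'
    rw [e1, ← LinearMap.comp_apply, ← TensorProduct.map_comp, e2]
    rfl
  have hydeg : y ∈ deg B j := by
    have := wedge_mem (R := Ω) (Y.map Prod.snd)
    rwa [List.length_map, hYl] at this
  have hperm : ((R.map Prod.snd) ++ (Y.map Prod.snd)).Perm (List.ofFn b) :=
    List.perm_append_comm.trans hP
  rcases wedge_perm (R := Ω) hperm with h | h
  · refine ⟨B, hm, g, b, y, z, hydeg, hzmem, hzT, hfin y fun c => ?_⟩
    rw [hkey 1 (by rw [one_smul, h, ofFn_wedge]) c, one_smul]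
  · refine ⟨B, hm, g, b, (-1 : Ω) • y, z, Submodule.smul_mem _ _ hydeg, hzmem, hzT,
      hfin ((-1 : Ω) • y) fun c => ?_⟩
    have e1 : mulLin (A.prod B hm) (pullSnd A B hm ((-1 : Ω) • y)) (φ c) =
        (-1 : Ω) • mulLin (A.prod B hm) (pullSnd A B hm y) (φ c) := by
      have e2 : pullSnd A B hm ((-1 : Ω) • y) = (-1 : Ω) • pullSnd A B hm y :=
        map_smul (ExteriorAlgebra.map (inclSnd A B hm)) (-1 : Ω) y
      rw [e2]
      exact mul_smul_comm _ _ _
    rw [e1, hkey (-1) (by rw [neg_one_smul, h, ofFn_wedge]) c, smul_smul, neg_mul_neg, one_mul,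
      one_smul]

end Pool.Agent.V8H94.VT
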