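import Pool.Agent.V8H94.VT.Dom
import Pool.Agent.V8H94.CT.Pub2

/-!
# Tate classes on `X × A` for dominated classes on `X`
-/

set_option autoImplicit false

namespace Pool.Agent.V8H94.VT

open Module TensorProduct Polynomial Pool.Agent.V8H94.CT Pool.Agent.V8H94.TC

variable {p : ℕ} [Fact p.Prime] {Ω : Type} [Field Ω] [CharZero Ω]

theorem mapTimes_times (T : Cohomology p Ω) (X : T.V) (A B : AbVar p Ω) (f : T.H X →ₗ[Ω] T.H X)
    (g : Coh A →ₗ[Ω] Coh B) (x : T.H X) (a : Coh A) :
    mapTimes T X A B f g (times T X A x a) = times T X B (f x) (g a) := rfl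

theorem times_smul (T : Cohomology p Ω) (X : T.V) (A : AbVar p Ω) (x : T.H X) (c : Ω) (a : Coh A) :
    times T X A x (c • a) = c • times T X A x a :=
  TensorProduct.tmul_smul (R := Ω) (M := T.H X) (N := Coh A) c x a

theorem smul_times (T : Cohomology p Ω) (X : T.V) (A : AbVar p Ω) (x : T.H X) (c : Ω) (a : Coh A) :
    times T X A (c • x) a = c • times T X A x a :=
  (TensorProduct.smul_tmul' (R := Ω) (M := T.H X) (N := Coh A) c x a).symm

theorem isWeil_root {k : ℕ} {w z : Ω} (hw : IsWeil p k w) (hz : aeval z (minpoly ℚ w) = 0) :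
    IsWeil p k z := by
  have hint : IsIntegral ℚ w := hw.1.tower_top
  have h1 : minpoly ℚ w = minpoly ℚ z :=
    minpoly.eq_of_irreducible_of_monic (minpoly.irreducible hint) hz (minpoly.monic hint)
  refine ⟨?_, fun y hy => hw.2 y (by rw [h1]; exact hy)⟩
  have h2 : minpoly ℚ w = (minpoly ℤ w).map (algebraMap ℤ ℚ) :=
    minpoly.isIntegrallyClosed_eq_field_fractions' ℚ hw.1
  refine ⟨minpoly ℤ w, minpoly.monic hw.1, ?_⟩
  rw [h2, aeval_map_algebraMap] at hz
  rwa [← aeval_def]

/-- The abelian variety with given eigenvectors. -/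
theorem exists_cover_level [IsAlgClosed Ω] (A : AbVar p Ω) {n : ℕ} (hn : 0 < n)
    (U : List (Ω × A.H)) (hU : ∀ u ∈ U, A.F u.2 = u.1 • u.2) (h0 : ∀ u ∈ U, u.2 ≠ 0) :
    ∃ (D : AbVar p Ω) (h : D.H →ₗ[Ω] A.H) (U' : List (Ω × D.H)), D.m = A.m * n ∧
      CT.IsHom A D h ∧ (∀ u ∈ U', D.F u.2 = u.1 • u.2) ∧
      U'.map Prod.fst = U.map (fun u => u.1 ^ n) ∧ (U'.map Prod.snd).map h = U.map Prod.snd := by
  have hw : ∀ i : Fin U.length, IsWeil p (A.m * n) ((U.get i).1 ^ n) := fun i =>
    (isWeil_of_eigen A (h0 _ (List.get_mem _ _)) (hU _ (List.get_mem _ _))).pow hn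
  obtain ⟨D, u, hDm, _, hu, hD⟩ := exists_universal' (p := p) (k := A.m * n)
    (Nat.mul_pos A.m_pos hn) (W := {w : Ω | IsWeil p (A.m * n) w})
    (fun w hw b hb => isWeil_root hw hb) (fun i : Fin U.length => (U.get i).1 ^ n)
    (fun i => ⟨hw i, hw i⟩)
  obtain ⟨h, hh, hhu⟩ := hD A n 1 (fun i => (U.get i).2) (by
    intro i
    rw [pow_one, pow_apply_eigen (hU _ (List.get_mem _ _))])
  refine ⟨D, h, List.ofFn fun i => ((U.get i).1 ^ n, u i), hDm,
    ⟨n, 1, hn, one_pos, by rw [hDm]; ring, hh⟩, ?_, ?_, ?_⟩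
  · intro y hy
    obtain ⟨i, rfl⟩ := (List.mem_ofFn' _ y).1 hy
    exact hu i
  · rw [List.map_ofFn]
    apply List.ext_get
    · simp
    · intro k h1 h2
      simp
  · rw [List.map_ofFn, List.map_ofFn]
    apply List.ext_get
    · simp
    · intro k h1 h2
      simp only [List.get_ofFn, Function.comp_apply, hhu]
      simp

theorem dom_mem [IsAlgClosed Ω] {T : Cohomology p Ω} (Z : Cycles T)
    (hAV : ∀ (A : AbVar p Ω) (r : ℕ), TC.TateHolds Z.S A r) {X : T.V} {x : T.H X} {i c : ℕ} {a : Ω}
    (hdom : ∀ t : ℕ, 0 < t →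
      ∃ (B : AbVar p Ω) (N g e : ℕ) (b : Basis (Fin N) Ω B.H) (Y R : List (Ω × B.H)),
        B.m = T.m X * t ∧ (∀ y ∈ Y, B.F y.2 = y.1 • y.2) ∧ (∀ y ∈ R, B.F y.2 = y.1 • y.2) ∧
        (Y.map Prod.snd ++ R.map Prod.snd).Perm (List.ofFn b) ∧ N = 2 * g ∧ 0 < e ∧
        i + Y.length = 2 * c ∧
        (a ^ t * (Y.map Prod.fst).prod) ^ e = ((p : Ω) ^ (T.m X * t * c)) ^ e ∧
        (Y.map Prod.fst).prod * (R.map Prod.fst).prod = (p : Ω) ^ (B.m * g) ∧
        times T X B x (wedge (Y.map Prod.snd) : ExteriorAlgebra Ω B.H) ∈ Z.C X B)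
    (A : AbVar p Ω) (U : List (Ω × A.H)) (hU : ∀ u ∈ U, A.F u.2 = u.1 • u.2) {s s' r : ℕ}
    (hs' : 0 < s') (hss : T.m X * s = A.m * s')
    (hrel : a ^ s * (U.map Prod.fst).prod ^ s' = (p : Ω) ^ (T.m X * s * r))
    (hdeg : i + U.length = 2 * r) :
    times T X A x (wedge (U.map Prod.snd) : ExteriorAlgebra Ω A.H) ∈ Z.C X A := by
  have hp : (p : Ω) ≠ 0 := Nat.cast_ne_zero.2 (Fact.out : p.Prime).ne_zero
  by_cases h0 : ∀ u ∈ U, u.2 ≠ 0
  swap
  · -- the class is zero
    push Not at h0
    obtain ⟨u, hu, hu0⟩ := h0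
    have h1 : wedge (R := Ω) (U.map Prod.snd) = 0 := by
      obtain ⟨l₁, l₂, rfl⟩ := List.append_of_mem hu
      rw [List.map_append, List.map_cons, wedge_append, wedge_cons, hu0, map_zero, zero_mul,
        mul_zero]
    rw [h1]
    have h2 : times T X A x 0 = 0 := TensorProduct.tmul_zero _ _
    exact h2 ▸ Submodule.zero_mem _
  obtain ⟨D, h, U', hDm, hh, hU', hU1, hU2⟩ := exists_cover_level A (T.m_pos X) U hU h0
  obtain ⟨B, N, g, e, b, Y, R, hBm, hY, hR, hP, hN, he, hic, hYrel, hYR, hx⟩ := hdom A.m A.m_pos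
  have hm : D.m = B.m := by rw [hDm, hBm, mul_comm]
  have hU'l : U'.length = U.length := by
    have := congrArg List.length hU1
    rwa [List.length_map, List.length_map] at this
  have hNl : Y.length + R.length = N := by
    have := hP.length_eq
    rw [List.length_append, List.length_map, List.length_map, List.length_ofFn] at this
    exact this
  -- it is enough to prove it on `D`
  suffices hD : times T X D x (wedge (U'.map Prod.snd) : ExteriorAlgebra Ω D.H) ∈ Z.C X D by
    have h1 := Z.pull_mem X A D h ((isHom_iff A D h).2 hh) _ hD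
    rw [mapTimes_times] at h1
    have h2 : pullLin A D h (wedge (U'.map Prod.snd) : ExteriorAlgebra Ω D.H) =
        (wedge (U.map Prod.snd) : ExteriorAlgebra Ω A.H) := by
      refine (map_wedge h (U'.map Prod.snd)).trans ?_
      rw [hU2]
    rw [h2] at h1
    exact h1
  refine Z.push_mem X D B hm N b _ ?_
  rw [mapTimes_times]
  -- the Tate class on `D × B`
  let il : D.H →ₗ[Ω] D.H × B.H := LinearMap.inl Ω D.H B.H
  let ir : B.H →ₗ[Ω] D.H × B.H := LinearMap.inr Ω D.H B.H
  let l : List (Ω × (D.H × B.H)) :=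
    U'.map (fun x => (x.1, il x.2)) ++ R.map (fun x => (x.1, ir x.2))
  have hl1 : l.map Prod.fst = U'.map Prod.fst ++ R.map Prod.fst := by
    simp only [l, List.map_append, List.map_map]
    rfl
  have hl2 : l.map Prod.snd = (U'.map Prod.snd).map il ++ (R.map Prod.snd).map ir := by
    simp only [l, List.map_append, List.map_map]
    rfl
  have hll : l.length = U'.length + R.length := by
    simp only [l, List.length_append, List.length_map]
  have hl : ∀ x ∈ l, (D.F.prodMap B.F) x.2 = x.1 • x.2 := by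
    intro x hx
    rcases List.mem_append.1 hx with hx | hx
    · obtain ⟨x', hx', rfl⟩ := List.mem_map.1 hx
      change (D.F x'.2, B.F 0) = x'.1 • ((x'.2, 0) : D.H × B.H)
      rw [hU' x' hx', map_zero, Prod.smul_mk, smul_zero]
    · obtain ⟨x', hx', rfl⟩ := List.mem_map.1 hx
      change (D.F 0, B.F x'.2) = x'.1 • ((0, x'.2) : D.H × B.H)
      rw [hR x' hx', map_zero, Prod.smul_mk, smul_zero]
  have hcr : c ≤ r + g := by omega
  have hT : CT.IsTate (D.prod B hm) (r + g - c) (wedge (l.map Prod.snd)) := by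
    refine ⟨?_, s' * e, Nat.mul_pos hs' he, ?_⟩
    · have h1 := wedge_mem (R := Ω) (l.map Prod.snd)
      have h2 : (l.map Prod.snd).length = 2 * (r + g - c) := by
        rw [List.length_map, hll]
        omega
      rwa [h2] at h1
    · have e1 : ExteriorAlgebra.map ((D.F.prodMap B.F : D.H × B.H →ₗ[Ω] D.H × B.H) ^ (s' * e))
          (wedge (l.map Prod.snd)) =
          (l.map Prod.fst).prod ^ (s' * e) • wedge (R := Ω) (l.map Prod.snd) :=
        map_pow_wedge_eigen _ l hl (s' * e)
      have hprodU : (U'.map Prod.fst).prod = (U.map Prod.fst).prod ^ T.m X := by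
        rw [hU1]
        have : ∀ L : List (Ω × A.H), (L.map fun u => u.1 ^ T.m X).prod =
            (L.map Prod.fst).prod ^ T.m X := by
          intro L
          induction L with
          | nil => simp
          | cons u L ih => simp only [List.map_cons, List.prod_cons, ih, mul_pow]
        exact this U
      have e2 : (l.map Prod.fst).prod ^ (s' * e) = (p : Ω) ^ (D.m * (r + g - c) * (s' * e)) := by
        rw [hl1, List.prod_append, hprodU]
        set α := (U.map Prod.fst).prod with hα
        set β := (R.map Prod.fst).prod with hβ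
        set γ := (Y.map Prod.fst).prod with hγ
        have hne : ((p : Ω) ^ (T.m X * A.m * c)) ^ (s' * e) ≠ 0 :=
          pow_ne_zero _ (pow_ne_zero _ hp)
        apply mul_right_cancel₀ hne
        have f1 : ((p : Ω) ^ (T.m X * A.m * c)) ^ (s' * e) = (a ^ A.m * γ) ^ (s' * e) := by
          rw [mul_comm s' e, pow_mul, ← hYrel, ← pow_mul]
        rw [f1]
        have f2 : a ^ (A.m * s') * α ^ (T.m X * s') = (p : Ω) ^ (T.m X * s * r * T.m X) := by
          rw [pow_mul (p : Ω) _ (T.m X), ← hrel, mul_pow, ← pow_mul, ← pow_mul, ← hss]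
          congr 2 <;> ring
        calc (α ^ T.m X * β) ^ (s' * e) * (a ^ A.m * γ) ^ (s' * e)
            = ((a ^ (A.m * s') * α ^ (T.m X * s')) * (γ * β) ^ s') ^ e := by
              rw [pow_mul (α ^ T.m X * β), pow_mul (a ^ A.m * γ), ← mul_pow _ _ e, mul_pow _ β,
                mul_pow _ γ, mul_pow γ β, ← pow_mul α, ← pow_mul a]
              congr 1
              ring
          _ = (((p : Ω) ^ (T.m X * s * r * T.m X)) * ((p : Ω) ^ (B.m * g)) ^ s') ^ e := by
              rw [f2, hYR]
          _ = (p : Ω) ^ (D.m * (r + g - c) * (s' * e)) * (a ^ A.m * γ) ^ (s' * e) := by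
              rw [← f1, ← pow_mul, ← pow_mul, ← pow_add, ← pow_mul, ← pow_add]
              congr 1
              obtain ⟨d, hd⟩ : ∃ d, r + g = c + d := ⟨r + g - c, by omega⟩
              have hd' : r + g - c = d := by omega
              rw [hd', hBm, hDm]
              have h1 : T.m X * s * r * T.m X = A.m * T.m X * s' * r := by
                calc T.m X * s * r * T.m X = (T.m X * s) * r * T.m X := by ring
                  _ = _ := by rw [hss]; ring
              rw [h1]
              calc (A.m * T.m X * s' * r + T.m X * A.m * g * s') * e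
                  = A.m * T.m X * s' * e * (r + g) := by ring
                _ = A.m * T.m X * s' * e * (c + d) := by rw [hd]
                _ = _ := by ring
      exact e1.trans (congrArg (fun t => t • _) e2)
  have hS : (wedge (l.map Prod.snd) : ExteriorAlgebra Ω (D.H × B.H)) ∈ Z.S.C (D.prod B hm) :=
    hAV (D.prod B hm) (r + g - c) _ hT
  have h1 := Z.pull_mem X (D.prod B hm) B (inclSnd D B hm) ((isHom_iff _ _ _).2 (isHom_inr hm))
    _ hx
  rw [mapTimes_times] at h1
  have h2 := Z.mul_mem X (D.prod B hm) _ h1 _ hS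
  rw [mapTimes_times] at h2
  have h3 : mulLin (D.prod B hm) (wedge (l.map Prod.snd) : ExteriorAlgebra Ω (D.H × B.H))
      (pullLin (D.prod B hm) B (inclSnd D B hm) (wedge (Y.map Prod.snd) : ExteriorAlgebra Ω B.H)) =
      (wedge ((Y.map Prod.snd).map ir ++ l.map Prod.snd) : ExteriorAlgebra Ω (D.H × B.H)) := by
    have h4 : (pullLin (D.prod B hm) B (inclSnd D B hm)
        (wedge (Y.map Prod.snd) : ExteriorAlgebra Ω B.H)) =
        (wedge ((Y.map Prod.snd).map ir) : ExteriorAlgebra Ω (D.H × B.H)) :=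
      map_wedge ir (Y.map Prod.snd)
    rw [h4]
    exact (wedge_append _ _).symm
  rw [h3] at h2
  have hperm : ((Y.map Prod.snd).map ir ++ l.map Prod.snd).Perm
      ((U'.map Prod.snd).map il ++ (List.ofFn b).map ir) := by
    rw [hl2]
    have e1 : ((Y.map Prod.snd).map ir ++ ((U'.map Prod.snd).map il ++ (R.map Prod.snd).map ir)).Perm
        ((U'.map Prod.snd).map il ++ ((Y.map Prod.snd).map ir ++ (R.map Prod.snd).map ir)) := by
      rw [← List.append_assoc, ← List.append_assoc]
      exact List.Perm.append_right _ List.perm_append_comm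
    refine e1.trans (List.Perm.append_left _ ?_)
    rw [← List.map_append]
    exact hP.map ir
  have hgoal : pointLin D B hm b (wedge (U'.map Prod.snd) : ExteriorAlgebra Ω D.H) =
      (wedge ((U'.map Prod.snd).map il ++ (List.ofFn b).map ir) :
        ExteriorAlgebra Ω (D.H × B.H)) := by
    have h5 : pointLin D B hm b (wedge (U'.map Prod.snd) : ExteriorAlgebra Ω D.H) =
        (ExteriorAlgebra.map il (wedge (U'.map Prod.snd)) : ExteriorAlgebra Ω (D.H × B.H)) *
          ExteriorAlgebra.map ir (ExteriorAlgebra.ιMulti Ω N b) := rfl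
    rw [h5, map_wedge, ← ofFn_wedge, map_wedge, wedge_append]
  rw [hgoal]
  rcases wedge_perm (R := Ω) hperm with h6 | h6
  · rw [h6] at h2
    exact h2
  · have h7 : (wedge ((Y.map Prod.snd).map ir ++ l.map Prod.snd) : ExteriorAlgebra Ω (D.H × B.H)) =
        (-1 : Ω) • wedge ((U'.map Prod.snd).map il ++ (List.ofFn b).map ir) := by
      rw [h6, neg_one_smul]
    rw [h7] at h2
    have h8 := Submodule.smul_mem _ (-1 : Ω) h2
    have h9 : times T X (D.prod B hm) x
        ((-1 : Ω) • wedge ((U'.map Prod.snd).map il ++ (List.ofFn b).map ir) :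
          ExteriorAlgebra Ω (D.H × B.H)) =
        (-1 : Ω) • times T X (D.prod B hm) x
        (wedge ((U'.map Prod.snd).map il ++ (List.ofFn b).map ir) :
          ExteriorAlgebra Ω (D.H × B.H)) := times_smul T X _ _ _ _
    have h10 : (-1 : Ω) • times T X (D.prod B hm) x
        ((-1 : Ω) • wedge ((U'.map Prod.snd).map il ++ (List.ofFn b).map ir) :
          ExteriorAlgebra Ω (D.H × B.H)) ∈ Z.C X (D.prod B hm) := h8
    rw [h9, smul_smul, neg_mul_neg, one_mul, one_smul] at h10
    exact h10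

end Pool.Agent.V8H94.VT
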