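import Pool.Agent.V8H94.VT.Defs
import Pool.Agent.V8H94.CT.Gtc3

/-!
# Classes dominated by abelian varieties
-/

set_option autoImplicit false

namespace Pool.Agent.V8H94.VT

open Module TensorProduct Pool.Agent.V8H94.CT Pool.Agent.V8H94.TC

variable {p : ℕ} [Fact p.Prime] {Ω : Type} [Field Ω] [CharZero Ω]

/-- The class `x` on `X` is dominated by abelian varieties: it is a generalised eigenvector for the
eigenvalue `a`, and `x ⊗ y` belongs to the system for a product `y` of eigenvectors `Y` on an abelian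
variety `B`, such that `Y`, `R` together are a basis of the first cohomology of `B`. -/
def IsDom {T : Cohomology p Ω} (Z : Cycles T) (X : T.V) (x : T.H X) : Prop :=
  ∃ (i k c : ℕ) (a : Ω), x ∈ T.gr X i ∧ ((T.F X - a • LinearMap.id) ^ k : T.H X →ₗ[Ω] T.H X) x = 0 ∧
    IsPure p (T.m X * i) a ∧ ∀ t : ℕ, 0 < t →
      ∃ (B : AbVar p Ω) (N g e : ℕ) (b : Basis (Fin N) Ω B.H) (Y R : List (Ω × B.H)),
        B.m = T.m X * t ∧ (∀ y ∈ Y, B.F y.2 = y.1 • y.2) ∧ (∀ y ∈ R, B.F y.2 = y.1 • y.2) ∧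
        (Y.map Prod.snd ++ R.map Prod.snd).Perm (List.ofFn b) ∧ N = 2 * g ∧ 0 < e ∧
        i + Y.length = 2 * c ∧
        (a ^ t * (Y.map Prod.fst).prod) ^ e = ((p : Ω) ^ (T.m X * t * c)) ^ e ∧
        (Y.map Prod.fst).prod * (R.map Prod.fst).prod = (p : Ω) ^ (B.m * g) ∧
        times T X B x (wedge (Y.map Prod.snd) : ExteriorAlgebra Ω B.H) ∈ Z.C X B

end Pool.Agent.V8H94.VT
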